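import Pool.Agent.Lib.MP_6bc78b_nt.GP.H62.Defs7

/-! Project GP10 (MP_6bc78b_nt): simple zeros in almost all windows of bounded length, under RH.
The function `ζ'²/ζ` is multiplied by a short Dirichlet polynomial `B(s) = ∑ β(m) m^{-s}`, the
product of one polynomial over the primes of each scale. Definitions and statements of the rows
on the side of the zeros. The paper proof is finding 5600. `l = log log T`. -/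

set_option autoImplicit false

open Complex Filter Topology MeasureTheory ArithmeticFunction Set
open scoped ENNReal

namespace Pool.Agent.Lib.MP_6bc78b_nt.GP.G10

open Pool.Agent.Lib.MP_6bc78b_nt.MS Pool.Agent.Lib.MP_6bc78b_nt.MS.P1
open Pool.Agent.Lib.MP_6bc78b_nt.GP Pool.Agent.Lib.MP_6bc78b_nt.GP.G7

/-! ## Definitions -/

/-- `EE_B(z) = ∑ β(m) EE(mz)`. -/
noncomputable def EM (A B : ℝ) (S : Finset ℕ) (β : ℕ → ℝ) (z : ℂ) : ℂ :=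
  ∑ m ∈ S, (β m : ℂ) * EE A B (m * z)

/-- The coefficients `∑_{m | n} β(m) b(n/m)` of `EE_B`. -/
noncomputable def am (A B : ℝ) (S : Finset ℕ) (β : ℕ → ℝ) (n : ℕ) : ℝ :=
  ∑ m ∈ S, if m ∣ n then β m * bn A B (n / m) else 0

/-- `B(s) = ∑ β(m) m^{-s}`. -/
noncomputable def pB (S : Finset ℕ) (β : ℕ → ℝ) (s : ℂ) : ℂ :=
  ∑ m ∈ S, (β m : ℂ) * (m : ℂ) ^ (-s)

/-- `S_E(t)` for the weight `w` and the coefficients of `EE_B`. -/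
noncomputable def SB (A B δ : ℝ) (w : ℝ → ℝ) (S : Finset ℕ) (β : ℕ → ℝ) (t : ℝ) : ℂ :=
  ∫ u : ℝ, ((w u * Real.exp (u / 2) : ℝ) : ℂ) * EM A B S β (zp u δ) * Complex.exp (u * t * I)

/-- The left line, window `G`. -/
noncomputable def ILG (A B T δ : ℝ) (G : ℂ → ℂ) : ℂ :=
  (1 / (2 * Real.pi) : ℂ) * ∫ y in (T / 2)..(4 * T),
    DF A B (-(1 / 2) + y * I) * om0 δ (-(1 / 2) + y * I) * G (-(1 / 2) + y * I)

/-- The zeros, window `G`. -/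
noncomputable def SSG (T δ : ℝ) (G : ℂ → ℂ) : ℂ :=
  ∑ᶠ γ ∈ {γ : ℝ | T / 2 < γ ∧ γ < 4 * T ∧ riemannZeta (1 / 2 + γ * I) = 0},
    (mz γ : ℂ) * deriv riemannZeta (1 / 2 + γ * I) * om0 δ (1 / 2 + γ * I) * G (1 / 2 + γ * I)

/-- The average over `[t - w, t + w]`. -/
noncomputable def Av (w : ℝ) (f : ℝ → ℂ) (t : ℝ) : ℂ :=
  (1 / (2 * (w : ℂ))) * ∫ x in (t - w)..(t + w), f x

/-- `H = lam / (10 √l)`. -/
noncomputable def HH (T lam : ℝ) : ℝ := lam / (10 * Real.sqrt (Real.log (Real.log T)))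

/-- The density of the window `GH`. -/
noncomputable def gd (H u : ℝ) : ℝ :=
  H / Real.sqrt (2 * Real.pi) * Real.exp (-(H ^ 2 * u ^ 2 / 2))

/-- The transform of the window: spline of width `lam / 2` times Gaussian. -/
noncomputable def wd (lam H u : ℝ) : ℝ :=
  Real.sinc (lam / 16 * u) ^ 8 * Real.exp (-(H ^ 2 * u ^ 2 / 2))

/-- A short polynomial with `β ≥ 0`, `∑ β(m)/m = 1`, `∑ β(m) β(m')/[m,m'] ≤ 1 + ν`, `m ≤ N`. -/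
structure Mol (S : Finset ℕ) (β : ℕ → ℝ) (N ν : ℝ) : Prop where
  one_le : ∀ m ∈ S, 1 ≤ m
  le : ∀ m ∈ S, (m : ℝ) ≤ N
  nonneg : ∀ m, 0 ≤ β m
  sum_one : ∑ m ∈ S, β m / m = 1
  sum_lcm : ∑ m ∈ S, ∑ m' ∈ S, β m * β m' / (Nat.lcm m m' : ℝ) ≤ 1 + ν

/-- `p_k = exp(w 2^k)`, so that `p_{k+1} = p_k²`. -/
noncomputable def pk (w : ℝ) (k : ℕ) : ℝ := Real.exp (w * 2 ^ k)

/-- The primes of scale `k`: in `(exp p_k, exp p_{k+1}]`. -/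
noncomputable def Qk (w : ℝ) (k : ℕ) : Finset ℕ :=
  qs (Real.exp (pk w k)) (Real.exp (pk w (k + 1)))

/-- `W_k = ∑ 1/q`. -/
noncomputable def Wk (w : ℝ) (k : ℕ) : ℝ :=
  Wq (Real.exp (pk w k)) (Real.exp (pk w (k + 1)))

/-- The cutoffs: `j_0 = 1`, `j_{k+1} = p_k / 2`. -/
noncomputable def jk (w : ℝ) : ℕ → ℝ
  | 0 => 1
  | k + 1 => pk w k / 2

/-- `(S, β)` is the product of the scales `0, …, K`, and `(S' k, β' k)` is the product without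
the scale `k`. -/
structure Scl (w : ℝ) (K : ℕ) (S : Finset ℕ) (β : ℕ → ℝ) (S' : ℕ → Finset ℕ) (β' : ℕ → ℕ → ℝ)
    (N ν : ℝ) : Prop where
  mol : Mol S β N ν
  mol' : ∀ k ≤ K, Mol (S' k) (β' k) N ν
  one_le : ∀ k ≤ K, 1 ≤ Wk w k
  fac : ∀ k ≤ K, ∀ f : ℕ → ℂ, ∑ m ∈ S, (β m : ℂ) * f m =
    (1 / (Wk w k : ℂ)) * ∑ q ∈ Qk w k, ∑ m ∈ S' k, (β' k m : ℂ) * f (q * m)
  sq : ∑ m ∈ S, β m ^ 2 / m ≤ ν

/-- `F` is the transform of an integrable function of norm at most `m`. -/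
def FTo (m : ℝ) (F : ℝ → ℂ) : Prop := ∃ f : ℝ → ℂ, Integrable f ∧ ∫ x, ‖f x‖ ≤ m ∧
  ∀ u : ℝ, F u = ∫ x, f x * Complex.exp (u * x * I)

/-- A cutoff. -/
def IsCut (ψ : ℝ → ℝ) : Prop := Continuous ψ ∧ (∀ u, 0 ≤ ψ u ∧ ψ u ≤ 1) ∧
  (∀ u, |u| ≤ 1 / 2 → ψ u = 1) ∧ ∀ u, 1 ≤ |u| → ψ u = 0

/-- The sum over the far zeros. -/
noncomputable def SFB (T lam : ℝ) (S : Finset ℕ) (β : ℕ → ℝ) (t : ℝ) : ℝ :=
  ∑ᶠ γ ∈ {γ : ℝ | (T / 2 < γ ∧ γ < 4 * T ∧ riemannZeta (1 / 2 + γ * I) = 0) ∧ lam ≤ |γ - t|},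
    ‖deriv riemannZeta (1 / 2 + γ * I)‖ * ‖pB S β (1 / 2 + γ * I)‖ *
      Real.exp (-((|γ - t| - lam / 2) ^ 2 / (2 * HH T lam ^ 2)))

/-! ## Rows -/

/-- SCLB: the scales exist (MERX or MERK for `W_k`, multiplicativity for the sums). -/
def SCLBStatement : Prop := ∀ ν : ℝ, 0 < ν → ∃ w : ℝ, 2 ≤ w ∧
  ∃ T0 : ℝ, 10 < T0 ∧ ∀ T : ℝ, T0 ≤ T → ∃ (K : ℕ) (S : Finset ℕ) (β : ℕ → ℝ)
    (S' : ℕ → Finset ℕ) (β' : ℕ → ℕ → ℝ), 1200 * Real.log (Real.log T) ≤ pk w K ∧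
    pk w K ≤ (1200 * Real.log (Real.log T)) ^ 2 ∧
    Scl w K S β S' β' (Real.exp (Real.log (Real.log T) ^ 5)) ν

/-- TKBS: `b * β` is close to `b` in mean square. -/
def TKBSStatement : Prop := ∀ A B a : ℝ, 0 < a → ∃ C : ℝ, 0 < C ∧ ∀ ε : ℝ, 0 < ε →
  ∃ T0 : ℝ, 10 < T0 ∧ ∀ (T ν : ℝ) (S : Finset ℕ) (β : ℕ → ℝ), T0 ≤ T → 0 < ν → ν ≤ 1 →
    Mol S β (Real.exp (Real.log (Real.log T) ^ 5)) ν →
    ∑' n : ℕ, (am A B S β n - bn A B n) ^ 2 * Real.exp (-(2 * a / T * n)) ≤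
      C * (ν + ε) * T * Real.log T ^ 4

/-- LOWB (AREK, CHV, TKBS, STRX, BANDB for `1/2 ≤ |u|`): the low frequencies. -/
def LOWBStatement : Prop := RiemannHypothesis → ∀ (A B : ℝ) (D : ℂ → ℂ), IsD A B D →
  ∀ ε : ℝ, 0 < ε → ∃ ν lam₀ : ℝ, 0 < ν ∧ ν ≤ 1 ∧ 1 ≤ lam₀ ∧ ∀ lam : ℝ, lam₀ ≤ lam →
  ∃ T0 : ℝ, 10 < T0 ∧ ∀ (T : ℝ) (S : Finset ℕ) (β : ℕ → ℝ), T0 ≤ T →
    Mol S β (Real.exp (Real.log (Real.log T) ^ 5)) ν →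
    ∫⁻ δ in Icc (1 / T) (2 / T), ∫⁻ u in Icc (-1 : ℝ) 1,
      ENNReal.ofReal (‖EM A B S β (zp u δ)‖ ^ 2 * Real.exp u / (1 + lam ^ 2 * u ^ 2)) ≤
      ENNReal.ofReal (ε * Real.log T ^ 4)

/-- BANDB: flat energy at positive frequencies. -/
def BANDBStatement : Prop := ∀ A B : ℝ, ∃ C : ℝ, 0 < C ∧ ∀ (T N a b : ℝ) (S : Finset ℕ)
  (β : ℕ → ℝ), 10 < T → Mol S β N 1 → 0 ≤ a → a ≤ b →
    ∫⁻ δ in Icc (1 / T) (2 / T), ∫⁻ v in Icc a b,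
      ENNReal.ofReal (‖EM A B S β (zp v δ)‖ ^ 2 * Real.exp v) ≤
      ENNReal.ofReal (C * (b - a + 2) * Real.log T ^ 4)

/-- TAILB: the high frequencies, cut by the Gaussian. -/
def TAILBStatement : Prop := ∀ A B : ℝ, ∃ T0 : ℝ, 10 < T0 ∧ ∀ (T N lam : ℝ) (S : Finset ℕ)
  (β : ℕ → ℝ), T0 ≤ T → 1 ≤ lam → Mol S β N 1 →
    ∫⁻ δ in Icc (1 / T) (2 / T), ∫⁻ u in {u : ℝ | 300 * Real.log (Real.log T) ≤ |u|},
      ENNReal.ofReal (‖EM A B S β (zp u δ)‖ ^ 2 * Real.exp (-(HH T lam ^ 2 * u ^ 2) + u)) ≤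
      ENNReal.ofReal 1

/-- AVGB (LOWB, BANDB, TAILB): one good `δ` for everything. -/
def AVGBStatement : Prop := RiemannHypothesis → ∀ (A B : ℝ) (D : ℂ → ℂ), IsD A B D →
  ∃ C : ℝ, 0 < C ∧ ∀ ε : ℝ, 0 < ε → ∃ ν lam₀ : ℝ, 0 < ν ∧ ν ≤ 1 ∧ 1 ≤ lam₀ ∧
  ∀ lam : ℝ, lam₀ ≤ lam → ∃ T0 : ℝ, 10 < T0 ∧
  ∀ (T w : ℝ) (K : ℕ) (S : Finset ℕ) (β : ℕ → ℝ) (S' : ℕ → Finset ℕ) (β' : ℕ → ℕ → ℝ),
    T0 ≤ T → 2 ≤ w → Scl w K S β S' β' (Real.exp (Real.log (Real.log T) ^ 5)) ν →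
    ∃ δ ∈ Icc (1 / T) (2 / T),
      ∫⁻ u in Icc (-1 : ℝ) 1,
        ENNReal.ofReal (‖EM A B S β (zp u δ)‖ ^ 2 * Real.exp u / (1 + lam ^ 2 * u ^ 2)) ≤
        ENNReal.ofReal (ε * T * Real.log T ^ 4) ∧
      (∀ k ≤ K, ∫⁻ v in Icc (pk w k / 2) (pk w (k + 1) + pk w k / 2),
        ENNReal.ofReal (‖EM A B (S' k) (β' k) (zp v δ)‖ ^ 2 * Real.exp v) ≤
        ENNReal.ofReal (C * 2 ^ k * pk w (k + 1) * T * Real.log T ^ 4)) ∧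
      ∫⁻ u in {u : ℝ | 300 * Real.log (Real.log T) ≤ |u|},
        ENNReal.ofReal (‖EM A B S β (zp u δ)‖ ^ 2 * Real.exp (-(HH T lam ^ 2 * u ^ 2) + u)) ≤
        ENNReal.ofReal (C * T)

/-- SPLB: the pieces of the window are small in `L¹`. -/
def SPLBStatement : Prop := ∃ ψ : ℝ → ℝ, IsCut ψ ∧ ∃ C : ℝ, 0 < C ∧ ∀ lam H j J : ℝ, 1 ≤ lam →
  0 < H → H ≤ lam → 1 ≤ j → 2 * j ≤ J →
  FTo (C / (lam ^ 6 * j ^ 6))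
    (fun u => ((wd lam H u * (ψ (u / J) - ψ (u / j)) : ℝ) : ℂ))

/-- PIECEB (Cauchy, MVT, Plancherel): the piece number `k`. -/
def PIECEBStatement : Prop := ∃ C : ℝ, 0 < C ∧ ∀ (A B T δ w m N ν : ℝ) (K k : ℕ)
  (S : Finset ℕ) (β : ℕ → ℝ) (S' : ℕ → Finset ℕ) (β' : ℕ → ℕ → ℝ) (F : ℝ → ℝ),
    10 < T → 0 < δ → δ ≤ 1 / 2 → 2 ≤ w → k ≤ K → Real.exp (pk w (k + 1)) ≤ T →
    Scl w K S β S' β' N ν → FTo m (fun u => (F u : ℂ)) → (∀ u, pk w k / 2 < |u| → F u = 0) →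
    (∫⁻ t in Icc T (2 * T), ENNReal.ofReal ‖SB A B δ F S β t‖) ^ 2 ≤
      ENNReal.ofReal (C * m ^ 2 * T) *
        ∫⁻ v in Icc (pk w k / 2) (pk w (k + 1) + pk w k / 2),
          ENNReal.ofReal (‖EM A B (S' k) (β' k) (zp v δ)‖ ^ 2 * Real.exp v)

/-- ERB (AVGB, SPLB, PIECEB, PLC): the mean of `S_E` for the window is small. -/
def ERBStatement : Prop := RiemannHypothesis → ∀ (A B : ℝ) (D : ℂ → ℂ), IsD A B D →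
  ∀ ε : ℝ, 0 < ε → ∃ ν : ℝ, 0 < ν ∧ ν ≤ 1 ∧ ∀ w : ℝ, 2 ≤ w → ∃ lam₀ : ℝ, 1 ≤ lam₀ ∧
  ∀ lam : ℝ, lam₀ ≤ lam → ∃ T0 : ℝ, 10 < T0 ∧
  ∀ (T : ℝ) (K : ℕ) (S : Finset ℕ) (β : ℕ → ℝ) (S' : ℕ → Finset ℕ) (β' : ℕ → ℕ → ℝ),
    T0 ≤ T → 1200 * Real.log (Real.log T) ≤ pk w K →
    pk w K ≤ (1200 * Real.log (Real.log T)) ^ 2 →
    Scl w K S β S' β' (Real.exp (Real.log (Real.log T) ^ 5)) ν →
    ∃ δ ∈ Icc (1 / T) (2 / T),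
      ∫⁻ t in Icc T (2 * T), ENNReal.ofReal ‖SB A B δ (wd lam (HH T lam)) S β t‖ ≤
        ENNReal.ofReal (ε * T * Real.log T ^ 2)

/-- CONB (`con_B` of helper61): the contour identity. -/
def CONBStatement : Prop := RiemannHypothesis → ∀ A B : ℝ, ∀ᶠ T : ℝ in atTop,
  ∀ (t δ lam : ℝ) (S : Finset ℕ) (β : ℕ → ℝ), 3 / 4 * T ≤ t → t ≤ 3 * T → 1 / T ≤ δ →
    δ ≤ 2 / T → 1 ≤ lam → lam ≤ Real.log T →
    Mol S β (Real.exp (Real.log (Real.log T) ^ 5)) 1 →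
    ‖SB A B δ (gd (HH T lam)) S β t -
      ILG A B T δ (fun s => pB S β s * GH (HH T lam) t s) -
      SSG T δ (fun s => pB S β s * GH (HH T lam) t s)‖ ≤ 1

/-- AVB: eight averages (Fubini). -/
def AVBStatement : Prop := ∀ (A B δ lam H t : ℝ) (S : Finset ℕ) (β : ℕ → ℝ), 0 < δ → δ ≤ 1 / 2 →
  0 < lam → 0 < H → (∀ m ∈ S, 1 ≤ m) →
    (Av (lam / 16))^[8] (fun x => SB A B δ (gd H) S β x) t =
      ((H / Real.sqrt (2 * Real.pi) : ℝ) : ℂ) * SB A B δ (wd lam H) S β t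

/-- MAINB (FEQ, GSL, OMD, number row): the left line is large for most `t`. -/
def MAINBStatement : Prop := ∀ A B : ℝ, ∃ c : ℝ, 0 < c ∧ ∀ ε : ℝ, 0 < ε →
  ∃ lam₀ : ℝ, 1 ≤ lam₀ ∧ ∀ lam : ℝ, lam₀ ≤ lam → ∃ T0 : ℝ, 10 < T0 ∧
  ∀ (T δ : ℝ) (S : Finset ℕ) (β : ℕ → ℝ), T0 ≤ T → 1 / T ≤ δ → δ ≤ 2 / T →
    Mol S β (Real.exp (Real.log (Real.log T) ^ 5)) 1 →
    volume {t : ℝ | T ≤ t ∧ t ≤ 2 * T ∧
      ‖(Av (lam / 16))^[8] (fun x =>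
        ILG A B T δ (fun s => pB S β s * GH (HH T lam) x s)) t‖ ≤
          c * HH T lam * Real.log T ^ 2} ≤ ENNReal.ofReal (ε * T)

/-- FARB (Sobolev at the zeros, MOM6 / CEL for `ζ'`): the far zeros in mean. -/
def FARBStatement : Prop := RiemannHypothesis → ∀ lam : ℝ, 1 ≤ lam → ∃ T0 : ℝ, 10 < T0 ∧
  ∀ (T : ℝ) (S : Finset ℕ) (β : ℕ → ℝ), T0 ≤ T →
    Mol S β (Real.exp (Real.log (Real.log T) ^ 5)) 1 →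
    ∫⁻ t in Icc T (2 * T), ENNReal.ofReal (SFB T lam S β t) ≤ ENNReal.ofReal T

/-- ZDB (from `zdu`): mean square of `B` over the zeros. -/
def ZDBStatement : Prop := RiemannHypothesis → ∃ C T0 : ℝ, 0 < C ∧ 10 < T0 ∧
  ∀ (T : ℝ) (S : Finset ℕ) (β : ℕ → ℝ), T0 ≤ T →
    Mol S β (Real.exp (Real.log (Real.log T) ^ 5)) 1 →
    ∑ᶠ γ ∈ {γ : ℝ | T / 2 < γ ∧ γ < 4 * T ∧ riemannZeta (1 / 2 + γ * I) = 0},
      (mz γ : ℝ) * ‖pB S β (1 / 2 + γ * I)‖ ^ 2 ≤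
      C * T * (Real.log T * ∑ m ∈ S, β m ^ 2 / m + 1)

/-- CHB10P (DX1, SCLB, ERB, CONB, AVB, MAINB, FARB, ZDB, GAMC): the measure of the centres without
a simple zero with large derivative within `lam`. -/
def CHB10PStatement : Prop := RiemannHypothesis → ∀ ε M : ℝ, 0 < ε → 0 < M →
  ∃ lam T0 : ℝ, 0 < lam ∧ 10 < T0 ∧ ∀ T : ℝ, T0 ≤ T →
    volume {t : ℝ | T ≤ t ∧ t ≤ 2 * T ∧ ∀ γ : ℝ, |γ - t| < lam → mz γ = 1 →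
      ‖deriv riemannZeta (1 / 2 + γ * I)‖ < M * Real.log T} ≤ ENNReal.ofReal (ε * T)

/-- CHB10 (DX1, SCLB, ERB, CONB, AVB, MAINB, FARB, GAMC): the measure of the centres without a
simple zero within `lam` (helper35's `Chb10Statement`). -/
def CHB10Statement : Prop := RiemannHypothesis → ∀ ε : ℝ, 0 < ε → ∃ lam T0 : ℝ, 0 < lam ∧
  10 < T0 ∧ ∀ T : ℝ, T0 ≤ T →
    volume {t : ℝ | T ≤ t ∧ t ≤ 2 * T ∧ ∀ γ : ℝ, |γ - t| < lam → mz γ ≠ 1} ≤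
      ENNReal.ofReal (ε * T)

/-! ## Elementary facts -/

lemma pk_succ (w : ℝ) (k : ℕ) : pk w (k + 1) = pk w k ^ 2 := by
  unfold pk
  rw [← Real.exp_nat_mul]
  congr 1
  push_cast
  ring

lemma pk_pos (w : ℝ) (k : ℕ) : 0 < pk w k := Real.exp_pos _

end Pool.Agent.Lib.MP_6bc78b_nt.GP.G10
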