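import Pool.Agent.Lib.MP_6bc78b_nt.GP.H43.Defs10m

/-! Project GP10 (MP_6bc78b_nt): the version with very large derivatives. The polynomial `B` may
have length `T^η`; extra blocks of primes above the scales make `∑ β(m)²/m` smaller than
`exp(-6 (log log T · log log log T)^{1/2})`. Each row is the row of `Defs10b` / `Defs10m` with
the same name (last letter `B` or number replaced by `T`), with `T^η` or `T^{1/100}` in place of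
`exp((log log T)^5)`. -/

set_option autoImplicit false

open Complex Filter Topology MeasureTheory ArithmeticFunction Set
open scoped ENNReal

namespace Pool.Agent.Lib.MP_6bc78b_nt.GP.G10

open Pool.Agent.Lib.MP_6bc78b_nt.MS Pool.Agent.Lib.MP_6bc78b_nt.MS.P1
open Pool.Agent.Lib.MP_6bc78b_nt.GP Pool.Agent.Lib.MP_6bc78b_nt.GP.G7
open Pool.Agent.Lib.MP_6bc78b_nt.GP.H52

/-- SCLT (as SCLB, with extra blocks of primes above the scale `K`, contained in `S` and in every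
`S' k`). -/
def SCLTStatement : Prop := ∀ ν η : ℝ, 0 < ν → 0 < η → ∃ w : ℝ, 2 ≤ w ∧
  ∃ T0 : ℝ, 10 < T0 ∧ ∀ T : ℝ, T0 ≤ T → ∃ (K : ℕ) (S : Finset ℕ) (β : ℕ → ℝ)
    (S' : ℕ → Finset ℕ) (β' : ℕ → ℕ → ℝ), 1200 * Real.log (Real.log T) ≤ pk w K ∧
    pk w K ≤ (1200 * Real.log (Real.log T)) ^ 2 ∧
    Scl w K S β S' β' (T ^ η) ν ∧
    ∑ m ∈ S, β m ^ 2 / m ≤
      Real.exp (-(6 * Real.sqrt (Real.log (Real.log T) * Real.log (Real.log (Real.log T)))))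

/-- TKBT: `b * β` is close to `b` in mean square. -/
def TKBTStatement : Prop := ∀ A B a : ℝ, 0 < a → ∃ C : ℝ, 0 < C ∧ ∀ ε : ℝ, 0 < ε →
  ∃ T0 : ℝ, 10 < T0 ∧ ∀ (T ν η : ℝ) (S : Finset ℕ) (β : ℕ → ℝ), T0 ≤ T → 0 < ν → ν ≤ 1 →
    0 < η → η ≤ 1 / 100 → Mol S β (T ^ η) ν →
    ∑' n : ℕ, (am A B S β n - bn A B n) ^ 2 * Real.exp (-(2 * a / T * n)) ≤
      C * (ν + η + ε) * T * Real.log T ^ 4

/-- LOWT (AREK, CHV, TKBT, STRX, BANDB for `1/2 ≤ |u|`): the low frequencies. -/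
def LOWTStatement : Prop := RiemannHypothesis → ∀ (A B : ℝ) (D : ℂ → ℂ), IsD A B D →
  ∀ ε : ℝ, 0 < ε → ∃ ν η lam₀ : ℝ, 0 < ν ∧ ν ≤ 1 ∧ 0 < η ∧ η ≤ 1 / 100 ∧ 1 ≤ lam₀ ∧
  ∀ lam : ℝ, lam₀ ≤ lam → ∃ T0 : ℝ, 10 < T0 ∧ ∀ (T : ℝ) (S : Finset ℕ) (β : ℕ → ℝ), T0 ≤ T →
    Mol S β (T ^ η) ν →
    ∫⁻ δ in Icc (1 / T) (2 / T), ∫⁻ u in Icc (-1 : ℝ) 1,
      ENNReal.ofReal (‖EM A B S β (zp u δ)‖ ^ 2 * Real.exp u / (1 + lam ^ 2 * u ^ 2)) ≤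
      ENNReal.ofReal (ε * Real.log T ^ 4)

/-- AVGT (LOWT, BANDB, TAILB): one good `δ` for everything. -/
def AVGTStatement : Prop := RiemannHypothesis → ∀ (A B : ℝ) (D : ℂ → ℂ), IsD A B D →
  ∃ C : ℝ, 0 < C ∧ ∀ ε : ℝ, 0 < ε → ∃ ν η lam₀ : ℝ, 0 < ν ∧ ν ≤ 1 ∧ 0 < η ∧ η ≤ 1 / 100 ∧
  1 ≤ lam₀ ∧ ∀ lam : ℝ, lam₀ ≤ lam → ∃ T0 : ℝ, 10 < T0 ∧
  ∀ (T w : ℝ) (K : ℕ) (S : Finset ℕ) (β : ℕ → ℝ) (S' : ℕ → Finset ℕ) (β' : ℕ → ℕ → ℝ),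
    T0 ≤ T → 2 ≤ w → Scl w K S β S' β' (T ^ η) ν →
    ∃ δ ∈ Icc (1 / T) (2 / T),
      ∫⁻ u in Icc (-1 : ℝ) 1,
        ENNReal.ofReal (‖EM A B S β (zp u δ)‖ ^ 2 * Real.exp u / (1 + lam ^ 2 * u ^ 2)) ≤
        ENNReal.ofReal (ε * T * Real.log T ^ 4) ∧
      (∀ k ≤ K, ∫⁻ v in Icc (pk w k / 2) (pk w (k + 1) + pk w k / 2),
        ENNReal.ofReal (‖EM A B (S' k) (β' k) (zp v δ)‖ ^ 2 * Real.exp v) ≤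
        ENNReal.ofReal (C * 2 ^ k * pk w (k + 1) * T * Real.log T ^ 4)) ∧
      ∫⁻ u in {u : ℝ | 300 * Real.log (Real.log T) ≤ |u|},
        ENNReal.ofReal (‖EM A B S β (zp u δ)‖ ^ 2 * Real.exp (-(HH T lam ^ 2 * u ^ 2) + u)) ≤
        ENNReal.ofReal (C * T)

/-- ERT (AVGT, SPLB, PIECEB or MVTX, PLC): the mean of `S_E` for the window is small. -/
def ERTStatement : Prop := RiemannHypothesis → ∀ (A B : ℝ) (D : ℂ → ℂ), IsD A B D →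
  ∀ ε : ℝ, 0 < ε → ∃ ν η : ℝ, 0 < ν ∧ ν ≤ 1 ∧ 0 < η ∧ η ≤ 1 / 100 ∧ ∀ w : ℝ, 2 ≤ w →
  ∃ lam₀ : ℝ, 1 ≤ lam₀ ∧ ∀ lam : ℝ, lam₀ ≤ lam → ∃ T0 : ℝ, 10 < T0 ∧
  ∀ (T : ℝ) (K : ℕ) (S : Finset ℕ) (β : ℕ → ℝ) (S' : ℕ → Finset ℕ) (β' : ℕ → ℕ → ℝ),
    T0 ≤ T → 1200 * Real.log (Real.log T) ≤ pk w K →
    pk w K ≤ (1200 * Real.log (Real.log T)) ^ 2 →
    Scl w K S β S' β' (T ^ η) ν →
    ∃ δ ∈ Icc (1 / T) (2 / T),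
      ∫⁻ t in Icc T (2 * T), ENNReal.ofReal ‖SB A B δ (wd lam (HH T lam)) S β t‖ ≤
        ENNReal.ofReal (ε * T * Real.log T ^ 2)

/-- CONT: the contour identity. -/
def CONTStatement : Prop := RiemannHypothesis → ∀ A B : ℝ, ∀ᶠ T : ℝ in atTop,
  ∀ (t δ lam : ℝ) (S : Finset ℕ) (β : ℕ → ℝ), 3 / 4 * T ≤ t → t ≤ 3 * T → 1 / T ≤ δ →
    δ ≤ 2 / T → 1 ≤ lam → lam ≤ Real.log T →
    Mol S β (T ^ (1 / 100 : ℝ)) 1 →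
    ‖SB A B δ (gd (HH T lam)) S β t -
      ILG A B T δ (fun s => pB S β s * GH (HH T lam) t s) -
      SSG T δ (fun s => pB S β s * GH (HH T lam) t s)‖ ≤ 1

/-- MAINT1: the averaged left line as Dirichlet polynomials. -/
def MAINT1Statement : Prop := ∀ A B lam : ℝ, 10 ≤ lam → ∃ T0 : ℝ, 10 < T0 ∧
  ∀ (T t δ : ℝ) (S : Finset ℕ) (β : ℕ → ℝ), T0 ≤ T → T ≤ t → t ≤ 2 * T → 1 / T ≤ δ →
    δ ≤ 2 / T → Mol S β (T ^ (1 / 100 : ℝ)) 1 →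
    ‖(Av (lam / 16))^[8] (fun x =>
        ILG A B T δ (fun s => pB S β s * GH (HH T lam) x s)) t -
      ((HH T lam / Real.sqrt (2 * Real.pi) : ℝ) : ℂ) *
        (kf δ t * w0 A B t * DW (fun _ => 1) lam (HH T lam) S β t -
          kf δ t * w1 A t * DW (fun n => Real.log n) lam (HH T lam) S β t +
          kf δ t * DW (bn 0 0) lam (HH T lam) S β t)‖ ≤ 1

/-- MAINT2: mean square of the part `n ≠ m`. -/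
def MAINT2Statement : Prop := ∃ C : ℝ, 0 < C ∧ ∀ lam ε : ℝ, 1 ≤ lam → 0 < ε →
  ∃ T0 : ℝ, 10 < T0 ∧ ∀ (T : ℝ) (a : ℕ → ℝ) (S : Finset ℕ) (β : ℕ → ℝ), T0 ≤ T →
    (∀ n : ℕ, Real.log n ≤ Real.log T / 50 → |a n| ≤ 1) →
    (∀ n : ℕ, |a n| ≤ (1 + Real.log n) ^ 2) →
    Mol S β (T ^ (1 / 100 : ℝ)) 1 →
    ∫⁻ t in Icc T (2 * T), ENNReal.ofReal (‖DWo a lam (HH T lam) S β t‖ ^ 2) ≤
      ENNReal.ofReal ((C / lam + ε) * T)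

/-- MAINT (MAINT1, MAINT2): the left line is large for most `t`. -/
def MAINTStatement : Prop := ∀ A B : ℝ, ∃ c : ℝ, 0 < c ∧ ∀ ε : ℝ, 0 < ε →
  ∃ lam₀ : ℝ, 1 ≤ lam₀ ∧ ∀ lam : ℝ, lam₀ ≤ lam → ∃ T0 : ℝ, 10 < T0 ∧
  ∀ (T δ : ℝ) (S : Finset ℕ) (β : ℕ → ℝ), T0 ≤ T → 1 / T ≤ δ → δ ≤ 2 / T →
    Mol S β (T ^ (1 / 100 : ℝ)) 1 →
    volume {t : ℝ | T ≤ t ∧ t ≤ 2 * T ∧
      ‖(Av (lam / 16))^[8] (fun x =>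
        ILG A B T δ (fun s => pB S β s * GH (HH T lam) x s)) t‖ ≤
          c * HH T lam * Real.log T ^ 2} ≤ ENNReal.ofReal (ε * T)

/-- FART: the far zeros in mean. -/
def FARTStatement : Prop := RiemannHypothesis → ∀ lam : ℝ, 1 ≤ lam → ∃ T0 : ℝ, 10 < T0 ∧
  ∀ (T : ℝ) (S : Finset ℕ) (β : ℕ → ℝ), T0 ≤ T →
    Mol S β (T ^ (1 / 100 : ℝ)) 1 →
    ∫⁻ t in Icc T (2 * T), ENNReal.ofReal (SFB T lam S β t) ≤ ENNReal.ofReal T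

/-- ZDT: mean square of `B` over the zeros. -/
def ZDTStatement : Prop := RiemannHypothesis → ∃ C T0 : ℝ, 0 < C ∧ 10 < T0 ∧
  ∀ (T : ℝ) (S : Finset ℕ) (β : ℕ → ℝ), T0 ≤ T →
    Mol S β (T ^ (1 / 100 : ℝ)) 1 →
    ∑ᶠ γ ∈ {γ : ℝ | T / 2 < γ ∧ γ < 4 * T ∧ riemannZeta (1 / 2 + γ * I) = 0},
      (mz γ : ℝ) * ‖pB S β (1 / 2 + γ * I)‖ ^ 2 ≤
      C * T * (Real.log T * ∑ m ∈ S, β m ^ 2 / m + 1)

/-- CHB10T (DX1, SCLT, ERT, CONT, AVB, MAINT, FART, ZDT, GAMC). -/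
def CHB10TStatement : Prop := RiemannHypothesis → ∀ ε : ℝ, 0 < ε →
  ∃ lam T0 : ℝ, 0 < lam ∧ 10 < T0 ∧ ∀ T : ℝ, T0 ≤ T →
    volume {t : ℝ | T ≤ t ∧ t ≤ 2 * T ∧ ∀ γ : ℝ, |γ - t| < lam → mz γ = 1 →
      ‖deriv riemannZeta (1 / 2 + γ * I)‖ < Real.log T *
        Real.exp (2 * Real.sqrt (Real.log (Real.log T) * Real.log (Real.log (Real.log T))))} ≤
      ENNReal.ofReal (ε * T)

/-- FIN10T (from CHB10T): the theorem. -/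
def Count10TStatement : Prop := RiemannHypothesis → ∀ ε : ℝ, 0 < ε → ∃ h₀ : ℝ, 0 < h₀ ∧
  ∀ T : ℝ, volume {t : ℝ | 0 ≤ t ∧ t ≤ T ∧ ∃ h : ℝ, h₀ ≤ h ∧ h ≤ T ∧
    (({γ : ℝ | t < γ ∧ γ < t + h ∧ zeroMult γ = 1 ∧ Real.log T *
      Real.exp (Real.sqrt (Real.log (Real.log T) * Real.log (Real.log (Real.log T)))) ≤
        |deriv hardyZ γ|}.ncard : ℕ) : ℝ) ≤ h / h₀} ≤ ENNReal.ofReal (ε * T)

end Pool.Agent.Lib.MP_6bc78b_nt.GP.G10
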