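import Pool.Agent.Lib.MP_6bc78b_nt.GP.H11.Defs11
import Pool.Agent.Lib.MP_6bc78b_nt.GP.H43.Defs10t

/-! Project GP11 (MP_6bc78b_nt), the version with very large derivatives: threshold of
`Count10TStatement`, number of zeros as in `Count11Statement`. `L = log T`, `l = log log T`. -/

set_option autoImplicit false

open Complex Filter Topology MeasureTheory ArithmeticFunction Set
open scoped ENNReal

namespace Pool.Agent.Lib.MP_6bc78b_nt.GP.G11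

open Pool.Agent.Lib.MP_6bc78b_nt.MS Pool.Agent.Lib.MP_6bc78b_nt.MS.P1
open Pool.Agent.Lib.MP_6bc78b_nt.GP Pool.Agent.Lib.MP_6bc78b_nt.GP.G7
open Pool.Agent.Lib.MP_6bc78b_nt.GP.G10

/-- The threshold before the last row. -/
noncomputable def thT (T : ℝ) : ℝ := Real.log T *
  Real.exp (2 * Real.sqrt (Real.log (Real.log T) * Real.log (Real.log (Real.log T))))

/-- TSDL: crude twisted mean square of `ζ'` over the zeros for length `exp (L^{2/5})`. -/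
def TSDLStatement : Prop := RiemannHypothesis → ∃ C T0 : ℝ, 0 < C ∧ 10 < T0 ∧
  ∀ (T : ℝ) (S : Finset ℕ) (a : ℕ → ℂ), T0 ≤ T →
    (∀ m ∈ S, 1 ≤ m ∧ (m : ℝ) ≤ Real.exp (Real.log T ^ (2 / 5 : ℝ))) →
    ∀ F : Finset ℝ, (∀ γ ∈ F, T / 2 < γ ∧ γ < 4 * T ∧ riemannZeta (1 / 2 + γ * I) = 0) →
      ∑ γ ∈ F, ‖deriv riemannZeta (1 / 2 + γ * I)‖ ^ 2 * ‖cA S a (1 / 2 + γ * I)‖ ^ 2 ≤
      C * T * (Real.log T ^ 4 * Rf S a)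

/-- SCL2T: SCLT with length `exp (L^{1/3})`, together with the square of `B`. -/
def SCL2TStatement : Prop := ∀ ν : ℝ, 0 < ν → ∃ w : ℝ, 2 ≤ w ∧
  ∃ T0 : ℝ, 10 < T0 ∧ ∀ T : ℝ, T0 ≤ T → ∃ (K : ℕ) (S : Finset ℕ) (β : ℕ → ℝ)
    (S' : ℕ → Finset ℕ) (β' : ℕ → ℕ → ℝ) (S2 : Finset ℕ) (β2 : ℕ → ℂ),
    1200 * Real.log (Real.log T) ≤ pk w K ∧
    pk w K ≤ (1200 * Real.log (Real.log T)) ^ 2 ∧
    Scl w K S β S' β' (Real.exp (Real.log T ^ (1 / 3 : ℝ))) ν ∧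
    ∑ m ∈ S, β m ^ 2 / m ≤
      Real.exp (-(6 * Real.sqrt (Real.log (Real.log T) * Real.log (Real.log (Real.log T))))) ∧
    (∀ m ∈ S2, 1 ≤ m ∧ (m : ℝ) ≤ Real.exp (Real.log T ^ (2 / 5 : ℝ))) ∧
    (∀ s : ℂ, cA S2 β2 s = pB S β s ^ 2) ∧ Rf S2 β2 ≤ 2

/-- NEART: NEAR with the threshold `thT T`. -/
def NEARTStatement : Prop := RiemannHypothesis → ∃ c : ℝ, 0 < c ∧ ∀ ε : ℝ, 0 < ε →
  ∃ lam : ℝ, 1 ≤ lam ∧ ∃ T0 : ℝ, 10 < T0 ∧ ∀ T : ℝ, T0 ≤ T →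
    ∃ (S : Finset ℕ) (β : ℕ → ℝ) (S2 : Finset ℕ) (β2 : ℕ → ℂ),
      (∀ m ∈ S2, 1 ≤ m ∧ (m : ℝ) ≤ Real.exp (Real.log T ^ (2 / 5 : ℝ))) ∧
      (∀ s : ℂ, cA S2 β2 s = pB S β s ^ 2) ∧ Rf S2 β2 ≤ 2 ∧
      volume {t : ℝ | T ≤ t ∧ t ≤ 2 * T ∧ ∀ F : Finset ℝ,
        (∀ γ : ℝ, γ ∈ F ↔ γ ∈ zn t lam (thT T)) →
        ∑ γ ∈ F, ‖deriv riemannZeta (1 / 2 + γ * I)‖ * ‖pB S β (1 / 2 + γ * I)‖ <
          c * lam * Real.log T ^ 2} ≤ ENNReal.ofReal (ε * T)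

/-- CHB11T (NEART, TSD, TSDL, FAM). -/
def CHB11TStatement : Prop := RiemannHypothesis → ∀ ε : ℝ, 0 < ε → ∃ lam : ℝ, 1 ≤ lam ∧
  ∀ A : ℝ, 0 < A → ∃ T0 : ℝ, 10 < T0 ∧ ∀ T : ℝ, T0 ≤ T →
    volume {t : ℝ | T ≤ t ∧ t ≤ 2 * T ∧ ((zn t lam (thT T)).ncard : ℝ) ≤ A} ≤
      ENNReal.ofReal (ε * T)

/-- Count11T (from CHB11T): for every `ε` there is `h0` such that for every `A`, for all large
`T`, outside a set of `t ∈ [0, T]` of measure at most `ε T`, every window `(t, t + h)`,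
`h0 ≤ h ≤ T`, contains more than `A h` simple zeros with
`|Z'| ≥ (log T) exp((log log T · log log log T)^{1/2})`. -/
def Count11TStatement : Prop := RiemannHypothesis → ∀ ε : ℝ, 0 < ε → ∃ h0 : ℝ, 1 ≤ h0 ∧
  ∀ A : ℝ, 0 < A → ∃ T0 : ℝ, 10 < T0 ∧ ∀ T : ℝ, T0 ≤ T →
    volume {t : ℝ | 0 ≤ t ∧ t ≤ T ∧ ∃ h : ℝ, h0 ≤ h ∧ h ≤ T ∧
      (({γ : ℝ | t < γ ∧ γ < t + h ∧ zeroMult γ = 1 ∧ Real.log T *
        Real.exp (Real.sqrt (Real.log (Real.log T) * Real.log (Real.log (Real.log T)))) ≤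
          |deriv hardyZ γ|}.ncard : ℕ) : ℝ) ≤ A * h} ≤ ENNReal.ofReal (ε * T)

end Pool.Agent.Lib.MP_6bc78b_nt.GP.G11
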