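import Pool.Agent.Lib.MP_6bc78b_nt.GP.H52.Kern
import Pool.Agent.Lib.MP_6bc78b_nt.GP.H43.Defs10b

/-! Project GP10 (MP_6bc78b_nt): the left line with the Dirichlet polynomial, split of MAINB. -/

set_option autoImplicit false

open Complex Filter Topology MeasureTheory ArithmeticFunction Set
open scoped ENNReal

namespace Pool.Agent.Lib.MP_6bc78b_nt.GP.G10

open Pool.Agent.Lib.MP_6bc78b_nt.MS Pool.Agent.Lib.MP_6bc78b_nt.MS.P1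
open Pool.Agent.Lib.MP_6bc78b_nt.GP Pool.Agent.Lib.MP_6bc78b_nt.GP.G7
open Pool.Agent.Lib.MP_6bc78b_nt.GP.H52

/-- `∑_n ∑_m a(n) β(m) (nm)^{-1/2} (n/m)^{it} wd(log(n/m))`. -/
noncomputable def DW (a : ℕ → ℝ) (lam H : ℝ) (S : Finset ℕ) (β : ℕ → ℝ) (t : ℝ) : ℂ :=
  ∑' n : ℕ, if n = 0 then 0 else ∑ m ∈ S,
    ((a n * β m / Real.sqrt (n * m) * wd lam H (Real.log (n / m)) : ℝ) : ℂ) *
      Complex.exp (t * Real.log (n / m) * I)

/-- The part `n ≠ m` of `DW`. -/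
noncomputable def DWo (a : ℕ → ℝ) (lam H : ℝ) (S : Finset ℕ) (β : ℕ → ℝ) (t : ℝ) : ℂ :=
  ∑' n : ℕ, if n = 0 then 0 else ∑ m ∈ S, if n = m then 0 else
    ((a n * β m / Real.sqrt (n * m) * wd lam H (Real.log (n / m)) : ℝ) : ℂ) *
      Complex.exp (t * Real.log (n / m) * I)

/-- MAINB1 (FEQ, GSL for `H ≥ 1/(10 √l)`, OMD, DX2): the averaged left line as Dirichlet
polynomials. Proof: as `lftr` (helper79), with the factor `∑ β(m) m^{1/2 - iy}`. -/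
def MAINB1Statement : Prop := ∀ A B lam : ℝ, 10 ≤ lam → ∃ T0 : ℝ, 10 < T0 ∧
  ∀ (T t δ : ℝ) (S : Finset ℕ) (β : ℕ → ℝ), T0 ≤ T → T ≤ t → t ≤ 2 * T → 1 / T ≤ δ →
    δ ≤ 2 / T → Mol S β (Real.exp (Real.log (Real.log T) ^ 5)) 1 →
    ‖(Av (lam / 16))^[8] (fun x =>
        ILG A B T δ (fun s => pB S β s * GH (HH T lam) x s)) t -
      ((HH T lam / Real.sqrt (2 * Real.pi) : ℝ) : ℂ) *
        (kf δ t * w0 A B t * DW (fun _ => 1) lam (HH T lam) S β t -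
          kf δ t * w1 A t * DW (fun n => Real.log n) lam (HH T lam) S β t +
          kf δ t * DW (bn 0 0) lam (HH T lam) S β t)‖ ≤ 1

/-- MAINB2 (mean square over the ratios, `sum_ne` of helper94): the part `n ≠ m`. -/
def MAINB2Statement : Prop := ∃ C : ℝ, 0 < C ∧ ∀ lam ε : ℝ, 1 ≤ lam → 0 < ε →
  ∃ T0 : ℝ, 10 < T0 ∧ ∀ (T : ℝ) (a : ℕ → ℝ) (S : Finset ℕ) (β : ℕ → ℝ), T0 ≤ T →
    (∀ n : ℕ, Real.log n ≤ Real.log (Real.log T) ^ 6 → |a n| ≤ 1) →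
    (∀ n : ℕ, |a n| ≤ (1 + Real.log n) ^ 2) →
    Mol S β (Real.exp (Real.log (Real.log T) ^ 5)) 1 →
    ∫⁻ t in Icc T (2 * T), ENNReal.ofReal (‖DWo a lam (HH T lam) S β t‖ ^ 2) ≤
      ENNReal.ofReal ((C / lam + ε) * T)

end Pool.Agent.Lib.MP_6bc78b_nt.GP.G10
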