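import Pool.Agent.Lib.MP_6bc78b_nt.GP.H43.Defs10b

/-! Project GP10 (MP_6bc78b_nt): the version with large derivatives, where the length of the
windows depends on `ε` only. -/

set_option autoImplicit false

open Complex Filter Topology MeasureTheory ArithmeticFunction Set
open scoped ENNReal

namespace Pool.Agent.Lib.MP_6bc78b_nt.GP.G10

open Pool.Agent.Lib.MP_6bc78b_nt.MS Pool.Agent.Lib.MP_6bc78b_nt.MS.P1
open Pool.Agent.Lib.MP_6bc78b_nt.GP Pool.Agent.Lib.MP_6bc78b_nt.GP.G7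

/-- SCLBQ: as SCLB, and `∑ β(m)²/m` (`= ∏ 1/W_k`) is smaller than any power of
`1 / log log log T`; `w` depends on `ν` only. -/
def SCLBQStatement : Prop := ∀ ν : ℝ, 0 < ν → ∃ w : ℝ, 2 ≤ w ∧ ∀ A : ℕ,
  ∃ T0 : ℝ, 10 < T0 ∧ ∀ T : ℝ, T0 ≤ T → ∃ (K : ℕ) (S : Finset ℕ) (β : ℕ → ℝ)
    (S' : ℕ → Finset ℕ) (β' : ℕ → ℕ → ℝ), 1200 * Real.log (Real.log T) ≤ pk w K ∧
    pk w K ≤ (1200 * Real.log (Real.log T)) ^ 2 ∧
    Scl w K S β S' β' (Real.exp (Real.log (Real.log T) ^ 5)) ν ∧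
    ∑ m ∈ S, β m ^ 2 / m ≤ 1 / Real.log (Real.log (Real.log T)) ^ A

/-- CHB10Q: the measure of the centres without a simple zero with large derivative within `lam`;
`lam` depends on `ε` only. -/
def CHB10QStatement : Prop := RiemannHypothesis → ∀ ε : ℝ, 0 < ε → ∃ lam : ℝ, 0 < lam ∧
  ∀ A : ℕ, ∃ T0 : ℝ, 10 < T0 ∧ ∀ T : ℝ, T0 ≤ T →
    volume {t : ℝ | T ≤ t ∧ t ≤ 2 * T ∧ ∀ γ : ℝ, |γ - t| < lam → mz γ = 1 →
      ‖deriv riemannZeta (1 / 2 + γ * I)‖ <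
        Real.log T * Real.log (Real.log (Real.log T)) ^ A} ≤ ENNReal.ofReal (ε * T)

/-- The theorem in this version. -/
def Count10QStatement : Prop := RiemannHypothesis → ∀ ε : ℝ, 0 < ε → ∃ h₀ : ℝ, 0 < h₀ ∧
  ∀ A : ℕ, ∃ T0 : ℝ, ∀ T : ℝ, T0 ≤ T →
    volume {t : ℝ | 0 ≤ t ∧ t ≤ T ∧ ∃ h : ℝ, h₀ ≤ h ∧ h ≤ T ∧
      (({γ : ℝ | t < γ ∧ γ < t + h ∧ zeroMult γ = 1 ∧
        Real.log T * Real.log (Real.log (Real.log T)) ^ A ≤ |deriv hardyZ γ|}.ncard : ℕ) : ℝ) ≤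
          h / h₀} ≤ ENNReal.ofReal (ε * T)

end Pool.Agent.Lib.MP_6bc78b_nt.GP.G10
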