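import Pool.Agent.Lib.MP_6bc78b_nt.GP.H62.Defs7
import Pool.Agent.Lib.MP_02fec8_nt.Mert

/-! Project GP7 (MP_6bc78b_nt), helper43: MERX. -/

set_option autoImplicit false

open Finset

namespace Pool.Agent.Lib.MP_6bc78b_nt.GP.G7

open Pool.Agent.Lib.MP_02fec8_nt

/-- **MERX**: `∑ 1/q` over `(P, P^K]` is large. -/
theorem merx : MERXStatement := by
  classical
  intro w
  obtain ⟨C, hC0, hC⟩ := Mert.mertens2
  obtain ⟨K0, hK0⟩ := exists_nat_gt (Real.exp (w + 1))
  refine ⟨K0 + 2, by omega, Real.exp (C + 1) + 3, by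
    have := Real.exp_pos (C + 1); linarith, fun P hP => ?_⟩
  have hE := Real.exp_pos (C + 1)
  have hE2 : (2 : ℝ) ≤ Real.exp (C + 1) := by
    have := Real.add_one_le_exp (C + 1)
    linarith
  have hP1 : (3 : ℝ) ≤ P := by linarith
  have hP0 : 0 < P := by linarith
  have hlP : 0 < Real.log P := Real.log_pos (by linarith)
  set y := ⌊P⌋₊ with hy
  set z := ⌊P ^ (K0 + 2)⌋₊ with hz
  have hyP : (y : ℝ) ≤ P := Nat.floor_le hP0.le
  have hyP' : P - 1 < y := by
    have := Nat.lt_floor_add_one P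
    linarith
  have hyE : Real.exp (C + 1) ≤ y := by linarith
  have hy0 : (0 : ℝ) < y := by linarith
  have hy2 : 2 ≤ y := by
    have : (1 : ℝ) < y := by linarith
    have : 1 < y := by exact_mod_cast this
    omega
  have hPK0 : (0 : ℝ) < P ^ (K0 + 2) := by positivity
  have hPK1 : P ^ (K0 + 1) ≤ z := by
    have h1 := Nat.lt_floor_add_one (P ^ (K0 + 2))
    have h2 : P ^ (K0 + 2) = P ^ (K0 + 1) * P := pow_succ _ _
    have h3 : 1 ≤ P ^ (K0 + 1) := one_le_pow₀ (by linarith)
    rw [← hz] at h1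
    nlinarith
  have hyz : y ≤ z := by
    apply Nat.floor_mono
    calc P = P ^ 1 := (pow_one P).symm
      _ ≤ P ^ (K0 + 2) := pow_le_pow_right₀ (by linarith) (by omega)
  have hm := hC y z hy2 hyz
  have hly : C + 1 ≤ Real.log y := by
    rw [Real.le_log_iff_exp_le hy0]; exact hyE
  have hly0 : 0 < Real.log y := by linarith
  have hlyP : Real.log y ≤ Real.log P := Real.log_le_log hy0 hyP
  have h1 : C / Real.log y ≤ 1 := by
    rw [div_le_one hly0]; linarith
  have h2 : Real.log (Real.log y) ≤ Real.log (Real.log P) := Real.log_le_log hly0 hlyP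
  have h3 : w + 1 + Real.log (Real.log P) ≤ Real.log (Real.log z) := by
    have h4 : (K0 + 1 : ℝ) * Real.log P ≤ Real.log z := by
      have h5 := Real.log_le_log (by positivity) hPK1
      rw [Real.log_pow] at h5
      push_cast at h5
      exact h5
    have h6 : w + 1 ≤ Real.log (K0 + 1) := by
      rw [Real.le_log_iff_exp_le (by positivity)]
      linarith
    have h7 : Real.log ((K0 + 1 : ℝ) * Real.log P) = Real.log (K0 + 1) + Real.log (Real.log P) :=
      Real.log_mul (by positivity) hlP.ne'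
    have h8 := Real.log_le_log (by positivity) h4
    rw [h7] at h8
    linarith
  have h9 : w ≤ Mert.S y z := by linarith
  refine h9.trans ?_
  unfold Mert.S Wq
  refine Finset.sum_le_sum_of_subset_of_nonneg ?_ fun q _ _ => by positivity
  intro q hq
  rw [Finset.mem_filter, Finset.mem_Ioc] at hq
  unfold qs
  rw [Finset.mem_filter, Finset.mem_range]
  refine ⟨by omega, hq.2, ?_⟩
  have h10 : y + 1 ≤ q := hq.1.1
  have h11 : ((y + 1 : ℕ) : ℝ) ≤ q := by exact_mod_cast h10
  push_cast at h11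
  linarith

end Pool.Agent.Lib.MP_6bc78b_nt.GP.G7
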